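import Pool.Agent.H72.DEF.Sec

/-!
# If all central extensions of `Q` split then `H₂(Q, ℤ) = 0`

The class of the 2-chain `(g, h)` modulo the 2-boundaries is a 2-cocycle with values in a group with
the trivial action; it defines a central extension of `Q`. A section gives a function whose
coboundary is the cocycle, so that every 2-cycle is a 2-boundary.
-/

set_option autoImplicit false

open CategoryTheory groupHomology

namespace Pool.Agent.H9.RQ

open Pool.Agent.H72.DEF

variable {Q : Type} [Group Q]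

/-- The 2-chains modulo the 2-boundaries. -/
private abbrev A (Q : Type) [Group Q] : Type := (Q × Q →₀ ℤ) ⧸ boundaries₂ (Tr Q)

/-- The class of `(g, h)`. -/
private noncomputable def c (g h : Q) : A Q :=
  (boundaries₂ (Tr Q)).mkQ (Finsupp.single (g, h) (1 : ℤ))

private theorem cocycle (g h k : Q) : c g h + c (g * h) k = c h k + c g (h * k) := by
  have h1 : (Finsupp.single (h, k) (1 : ℤ) - Finsupp.single (g * h, k) (1 : ℤ) +
      Finsupp.single (g, h * k) (1 : ℤ) - Finsupp.single (g, h) (1 : ℤ) : Q × Q →₀ ℤ) ∈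
      boundaries₂ (Tr Q) := ⟨Finsupp.single (g, h, k) (1 : ℤ), d32_one g h k 1⟩
  have h2 := (Submodule.Quotient.mk_eq_zero (boundaries₂ (Tr Q))).2 h1
  rw [← Submodule.mkQ_apply, map_sub, map_add, map_sub] at h2
  have h3 : c h k - c (g * h) k + c g (h * k) - c g h = 0 := h2
  have h4 : c h k + c g (h * k) - (c g h + c (g * h) k) = 0 := by
    rw [← h3]
    abel
  exact (sub_eq_zero.1 h4).symm

private theorem c_one_left (k : Q) : c 1 k = c (1 : Q) 1 := by
  have h := cocycle (1 : Q) 1 k
  rw [one_mul, one_mul, add_comm (c 1 k) (c 1 k)] at h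
  exact (add_right_cancel h).symm

private theorem c_one_right (g : Q) : c g 1 = c (1 : Q) 1 := by
  have h := cocycle g (1 : Q) 1
  rw [mul_one, mul_one] at h
  exact add_right_cancel h

/-- The central extension. -/
@[ext] private structure W (Q : Type) [Group Q] where
  a : A Q
  g : Q

private noncomputable instance : Mul (W Q) := ⟨fun x y => ⟨x.a + y.a + c x.g y.g, x.g * y.g⟩⟩

private noncomputable instance : One (W Q) := ⟨⟨-c 1 1, 1⟩⟩

private noncomputable instance : Inv (W Q) := ⟨fun x => ⟨-x.a - c x.g⁻¹ x.g - c 1 1, x.g⁻¹⟩⟩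

private theorem mul_a (x y : W Q) : (x * y).a = x.a + y.a + c x.g y.g := rfl

private theorem mul_g (x y : W Q) : (x * y).g = x.g * y.g := rfl

private theorem one_a : (1 : W Q).a = -c 1 1 := rfl

private theorem one_g : (1 : W Q).g = 1 := rfl

private noncomputable instance : Group (W Q) :=
  Group.ofLeftAxioms (G := W Q)
    (fun x y z => by
      refine W.ext ?_ ?_
      · rw [mul_a, mul_a, mul_a, mul_a, mul_g, mul_g]
        have h := cocycle x.g y.g z.g
        calc x.a + y.a + c x.g y.g + z.a + c (x.g * y.g) z.g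
            = x.a + y.a + z.a + (c x.g y.g + c (x.g * y.g) z.g) := by abel
          _ = x.a + y.a + z.a + (c y.g z.g + c x.g (y.g * z.g)) := by rw [h]
          _ = x.a + (y.a + z.a + c y.g z.g) + c x.g (y.g * z.g) := by abel
      · rw [mul_g, mul_g, mul_g, mul_g, mul_assoc])
    (fun x => by
      refine W.ext ?_ ?_
      · rw [mul_a, one_a, one_g, c_one_left x.g]
        abel
      · rw [mul_g, one_g, one_mul])
    (fun x => by
      refine W.ext ?_ ?_
      · show -x.a - c x.g⁻¹ x.g - c 1 1 + x.a + c x.g⁻¹ x.g = -c 1 1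
        abel
      · show x.g⁻¹ * x.g = 1
        rw [inv_mul_cancel])

/-- The projection. -/
private noncomputable def pr : W Q →* Q where
  toFun x := x.g
  map_one' := rfl
  map_mul' _ _ := rfl

private theorem pr_surj : Function.Surjective (pr : W Q →* Q) := fun g => ⟨⟨0, g⟩, rfl⟩

private theorem pr_ker : (pr : W Q →* Q).ker ≤ Subgroup.center (W Q) := by
  intro x hx
  have hg : x.g = 1 := hx
  rw [Subgroup.mem_center_iff]
  intro y
  refine W.ext ?_ ?_
  · rw [mul_a, mul_a, hg, c_one_left, c_one_right, add_comm y.a x.a]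
  · rw [mul_g, mul_g, hg, one_mul, mul_one]

/-- A group all of whose central extensions split has trivial second homology. -/
theorem isZero_H2_of_sec {Q : Type} [Group Q] (hs : Sec Q) :
    CategoryTheory.Limits.IsZero (groupHomology (Rep.trivial ℤ Q ℤ) 2) := by
  obtain ⟨s, h⟩ := hs (W Q) pr pr_surj pr_ker
  have hg : ∀ t : Q, (s t).g = t := h
  have hc : ∀ g k : Q, c g k = (s (g * k)).a - (s g).a - (s k).a := by
    intro g k
    have h1 := congrArg W.a (map_mul s g k)
    rw [mul_a, hg, hg] at h1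
    rw [h1]
    abel
  set F : (Q →₀ ℤ) →ₗ[ℤ] A Q :=
    Finsupp.lsum ℤ fun g => LinearMap.toSpanSingleton ℤ (A Q) (s g).a with hF
  have hFs : ∀ (g : Q) (n : ℤ), F (Finsupp.single g n) = n • (s g).a := by
    intro g n
    rw [hF]
    simp
  have key : ∀ x : Q × Q →₀ ℤ, (boundaries₂ (Tr Q)).mkQ x = -F ((d₂₁ (Tr Q)).hom x) := by
    intro x
    have e : (boundaries₂ (Tr Q)).mkQ = -(F ∘ₗ (d₂₁ (Tr Q)).hom) := by
      refine Finsupp.lhom_ext fun p n => ?_
      obtain ⟨g, k⟩ := p
      show (boundaries₂ (Tr Q)).mkQ (Finsupp.single (g, k) n) =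
        -F ((d₂₁ (Tr Q)).hom (Finsupp.single (g, k) n))
      rw [d21_one, map_add, map_sub, hFs, hFs, hFs]
      have e1 : (Finsupp.single (g, k) n : Q × Q →₀ ℤ) = n • Finsupp.single (g, k) (1 : ℤ) := by
        rw [Finsupp.smul_single, smul_eq_mul, mul_one]
      rw [e1, map_smul]
      have e2 : (boundaries₂ (Tr Q)).mkQ (Finsupp.single (g, k) (1 : ℤ)) = c g k := rfl
      rw [e2, hc g k, smul_sub, smul_sub]
      abel
    exact LinearMap.congr_fun e x
  have hz : ∀ x : cycles₂ (Tr Q), H2π (Tr Q) x = 0 := by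
    intro x
    rw [H2π_eq_zero_iff]
    have h1 := key x.1
    have h2 : (d₂₁ (Tr Q)).hom x.1 = 0 := x.2
    rw [h2, map_zero, neg_zero, Submodule.mkQ_apply, Submodule.Quotient.mk_eq_zero] at h1
    exact h1
  have hsub : Subsingleton (groupHomology.H2 (Tr Q)) := by
    refine ⟨fun x y => ?_⟩
    have h0 : ∀ x : groupHomology.H2 (Tr Q), x = 0 := fun x =>
      H2_induction_on (C := fun x => x = 0) x hz
    rw [h0 x, h0 y]
  exact ModuleCat.isZero_of_subsingleton _

end Pool.Agent.H9.RQ
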